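import Pool.Agent.Helper13.OPN.B

/-!
# Project OPN: algebraic functions which are rational on the generic line, several coordinates
-/

universe u v w

namespace Pool.Agent.OPN

open Polynomial Pool.Agent.Helper37.UL

section indep

variable {S : Type u} [Field S] {K L M : Subfield S} {ι : Type v} {κ : Type w} {x : ι → S} {y : κ → S}

theorem indep_swap (h : AlgebraicIndependent K (Sum.elim x y)) :
    AlgebraicIndependent K (Sum.elim y x) := by
  have h1 := h.comp Sum.swap Sum.swap_leftInverse.injective
  convert h1 using 1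
  funext i
  rcases i with i | i <;> rfl

theorem indep_one {z : S} : AlgebraicIndependent K (fun _ : Unit => z) ↔ Transcendental K z :=
  algebraicIndependent_unique_type_iff

/-- translations -/
theorem indep_add (h : AlgebraicIndependent K x) {d : ι → S} (hd : ∀ i, d i ∈ K) :
    AlgebraicIndependent K (fun i => x i + d i) := by
  classical
  let τ : MvPolynomial ι K →ₐ[K] MvPolynomial ι K :=
    MvPolynomial.bind₁ fun i => MvPolynomial.X i + MvPolynomial.C (⟨d i, hd i⟩ : K)
  let τ' : MvPolynomial ι K →ₐ[K] MvPolynomial ι K :=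
    MvPolynomial.bind₁ fun i => MvPolynomial.X i - MvPolynomial.C (⟨d i, hd i⟩ : K)
  have h1 : τ'.comp τ = AlgHom.id K _ := by
    apply MvPolynomial.algHom_ext
    intro i
    simp [τ, τ']
  have h2 : Function.Injective τ := by
    intro a b hab
    have h3 := congrArg τ' hab
    have h4 : ∀ p, τ' (τ p) = p := fun p => congrArg (fun f => f p) h1
    rwa [h4, h4] at h3
  have h3 : (MvPolynomial.aeval (fun i => x i + d i) : MvPolynomial ι K →ₐ[K] S) =
      (MvPolynomial.aeval x).comp τ := by
    apply MvPolynomial.algHom_ext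
    intro i
    simp only [τ, MvPolynomial.aeval_X, AlgHom.comp_apply, MvPolynomial.bind₁_X_right, map_add,
      MvPolynomial.aeval_C]
    rfl
  unfold AlgebraicIndependent
  rw [h3]
  exact (show Function.Injective (MvPolynomial.aeval x : MvPolynomial ι K →ₐ[K] S) from h).comp h2

theorem gn_gn : gn (gn K x) y = gn K (Sum.elim x y) := by
  unfold gn
  rw [Set.Sum.elim_range]
  exact ad_ad

theorem gn_comm : gn (gn K x) y = gn (gn K y) x := ad_comm

theorem gn_comp {ι' : Type*} (e : ι' ≃ ι) : gn K (x ∘ e) = gn K x := by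
  unfold gn
  rw [e.surjective.range_comp]

end indep

section planeN

variable {S : Type u} [Field S] [IsAlgClosed S] [CharZero S]

/-- **The generic line.** -/
theorem planeN (n : ℕ) : ∀ {E : Subfield S} (_ : ∀ z : S, IsAlgebraic E z → z ∈ E)
    {a0 a1 : Fin n → S} {u y : S} (_ : AlgebraicIndependent E (Sum.elim a0 a1))
    (_ : Transcendental (gn E (Sum.elim a0 a1)) u)
    (_ : y ∈ ad (acl (gn E (Sum.elim a0 a1))) {u})
    (_ : IsAlgebraic (gn (ad E {u}) (fun i => a0 i + u * a1 i)) y),
    y ∈ gn (ad E {u}) (fun i => a0 i + u * a1 i) := by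
  induction n with
  | zero =>
    intro E hE a0 a1 u y ha hu h1 h2
    refine (?_ : ad _ _ ≤ gn _ _) h1
    refine ad_le ?_ ?_
    · have h3 : acl (gn E (Sum.elim a0 a1)) ≤ E := by
        intro z hz
        refine hE z (isAlgebraic_mono ?_ (mem_acl.1 hz))
        refine gn_le le_rfl ?_
        rintro (i | i) <;> exact i.elim0
      exact h3.trans (le_ad.trans le_gn)
    · rintro _ rfl
      exact le_gn mem_adE
  | succ n ih =>
    intro E hE a0 a1 u y ha hu h1 h2
    -- the families
    set x0 : S := a0 0 with hx0
    set x1 : S := a1 0 with hx1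
    set P : Fin n ⊕ Fin n → S := Sum.elim (fun i => a0 i.succ) (fun i => a1 i.succ) with hP
    set T : Unit ⊕ Unit → S := Sum.elim (fun _ => x0) (fun _ => x1) with hT
    let e : (Fin n ⊕ Fin n) ⊕ (Unit ⊕ Unit) → Fin (n + 1) ⊕ Fin (n + 1) :=
      Sum.elim (Sum.map Fin.succ Fin.succ) (Sum.map (fun _ => 0) (fun _ => 0))
    have he : Function.Injective e := by
      rintro ((i | i) | (i | i)) ((j | j) | (j | j)) hij <;>
        simp only [e, Sum.elim_inl, Sum.elim_inr, Sum.map_inl, Sum.map_inr, Sum.inl.injEq,
          Sum.inr.injEq, Fin.succ_inj, reduceCtorEq] at hij ⊢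
      · exact hij
      · exact absurd hij (Fin.succ_ne_zero _)
      · exact hij
      · exact absurd hij (Fin.succ_ne_zero _)
      · exact absurd hij.symm (Fin.succ_ne_zero _)
      · exact absurd hij.symm (Fin.succ_ne_zero _)
    have hPT : AlgebraicIndependent E (Sum.elim P T) := by
      have h3 := ha.comp e he
      convert h3 using 1
      funext i
      rcases i with (i | i) | (i | i) <;> rfl
    have hall : gn E (Sum.elim a0 a1) = gn (gn E T) P := by
      apply le_antisymm
      · refine gn_le (le_gn.trans le_gn) ?_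
        rintro (i | i)
        · refine Fin.cases ?_ (fun i => ?_) i
          · exact le_gn (mem_gn (x := T) (Sum.inl ()))
          · exact mem_gn (x := P) (Sum.inl i)
        · refine Fin.cases ?_ (fun i => ?_) i
          · exact le_gn (mem_gn (x := T) (Sum.inr ()))
          · exact mem_gn (x := P) (Sum.inr i)
      · refine gn_le (gn_le le_gn ?_) ?_
        · rintro (i | i)
          · exact mem_gn (x := Sum.elim a0 a1) (Sum.inl 0)
          · exact mem_gn (x := Sum.elim a0 a1) (Sum.inr 0)
        · rintro (i | i)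
          · exact mem_gn (x := Sum.elim a0 a1) (Sum.inl i.succ)
          · exact mem_gn (x := Sum.elim a0 a1) (Sum.inr i.succ)
    set c : Fin (n + 1) → S := fun i => a0 i + u * a1 i with hc
    have hP_T : AlgebraicIndependent (gn E T) P := (indep_sum_iff.1 hPT).2
    have hT_P : AlgebraicIndependent (gn E P) T := (indep_sum_iff.1 (indep_swap hPT)).2
    -- the first step
    have s1 : y ∈ gn (ad (acl (gn E T)) {u}) (fun i : Fin n => c i.succ) := by
      refine ih (fun z hz => acl_closed hz) (indep_acl hP_T) ?_ ?_ ?_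
      · refine tr_mono ?_ (tr_acl hu)
        rw [hall]
        exact gn_le (acl_mono le_gn) fun i => le_acl (mem_gn i)
      · refine (?_ : ad _ _ ≤ ad _ _) h1
        rw [hall]
        exact ad_mono (acl_mono (gn_mono le_acl)) le_rfl
      · refine isAlgebraic_mono ?_ h2
        refine gn_le ((ad_mono (le_gn.trans le_acl) le_rfl).trans le_gn) fun i => ?_
        refine Fin.cases ?_ (fun i => ?_) i
        · refine le_gn ?_
          refine Subfield.add_mem _ ?_ (Subfield.mul_mem _ mem_adE ?_)
          · exact le_ad (le_acl (mem_gn (x := T) (Sum.inl ())))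
          · exact le_ad (le_acl (mem_gn (x := T) (Sum.inr ())))
        · exact mem_gn (x := fun i : Fin n => c i.succ) i
    -- the second step
    have s2 : y ∈ ad (ad (acl (gn E P)) {u}) {x0 + u * x1} := by
      obtain ⟨h3, h4⟩ := indep_sum_iff.1 (indep_acl hT_P)
      rw [indep_one] at h3 h4
      rw [gn_one] at h4
      have hle : ad (ad (acl (gn E P)) {x1}) {x0} ≤ acl (gn E (Sum.elim a0 a1)) := by
        rw [hall, gn_comm]
        refine ad_le (ad_le (acl_mono le_gn) ?_) ?_
        · rintro _ rfl
          exact le_acl (mem_gn (x := T) (Sum.inr ()))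
        · rintro _ rfl
          exact le_acl (mem_gn (x := T) (Sum.inl ()))
      refine plane (fun z hz => acl_closed hz) h3 h4 (tr_mono hle (tr_acl hu)) ?_ ?_
      · refine (?_ : ad _ _ ≤ ad _ _) h1
        refine ad_mono (acl_mono ?_) le_rfl
        rw [hall, gn_comm]
        refine gn_le (le_acl.trans (le_ad.trans le_ad)) ?_
        rintro (i | i)
        · exact mem_adE
        · exact le_ad mem_adE
      · refine isAlgebraic_mono ?_ h2
        refine gn_le ((ad_mono (le_gn.trans le_acl) le_rfl).trans le_ad) fun i => ?_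
        refine Fin.cases ?_ (fun i => ?_) i
        · exact mem_adE
        · refine le_ad ?_
          refine Subfield.add_mem _ ?_ (Subfield.mul_mem _ mem_adE ?_)
          · exact le_ad (le_acl (mem_gn (x := P) (Sum.inl i)))
          · exact le_ad (le_acl (mem_gn (x := P) (Sum.inr i)))
    -- separation of variables
    have s3 : y ∈ gn E (Sum.elim T (Sum.elim P (fun _ : Unit => u))) := by
      refine sep hE ?_ ?_ ?_
      · refine indep_swap (indep_sum_iff.2 ⟨hT_P, ?_⟩)
        rw [indep_one, gn_comm, ← hall]
        exact hu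
      · refine (?_ : gn _ _ ≤ gn _ _) s1
        refine gn_le (ad_le le_gn ?_) fun i => ?_
        · intro z hz
          rw [Set.mem_singleton_iff.1 hz]
          exact mem_gn (x := Sum.elim P (fun _ : Unit => u)) (Sum.inr ())
        · refine Subfield.add_mem _ ?_ (Subfield.mul_mem _ ?_ ?_)
          · exact mem_gn (x := Sum.elim P (fun _ : Unit => u)) (Sum.inl (Sum.inl i))
          · exact mem_gn (x := Sum.elim P (fun _ : Unit => u)) (Sum.inr ())
          · exact mem_gn (x := Sum.elim P (fun _ : Unit => u)) (Sum.inl (Sum.inr i))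
      · refine (?_ : ad _ _ ≤ gn _ _) s2
        have hu' : u ∈ gn (acl (gn E P)) (Sum.elim T (fun _ : Unit => u)) :=
          mem_gn (x := Sum.elim T (fun _ : Unit => u)) (Sum.inr ())
        refine ad_le (ad_le le_gn ?_) ?_
        · intro z hz
          rw [Set.mem_singleton_iff.1 hz]
          exact hu'
        · intro z hz
          rw [Set.mem_singleton_iff.1 hz]
          refine Subfield.add_mem _ ?_ (Subfield.mul_mem _ hu' ?_)
          · exact mem_gn (x := Sum.elim T (fun _ : Unit => u)) (Sum.inl (Sum.inl ()))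
          · exact mem_gn (x := Sum.elim T (fun _ : Unit => u)) (Sum.inl (Sum.inr ()))
    -- the end
    have h5 : AlgebraicIndependent (ad E {u}) (Sum.elim a0 a1) := by
      have h6 := indep_swap (indep_sum_iff.2 ⟨ha, indep_one.2 hu⟩)
      have h7 := (indep_sum_iff.1 h6).2
      rwa [gn_one] at h7
    obtain ⟨h6, h7⟩ := indep_sum_iff.1 h5
    have h8 : AlgebraicIndependent (gn (ad E {u}) a1) c :=
      indep_add h7 fun i => Subfield.mul_mem _ (le_gn mem_adE) (mem_gn i)
    have h9 : AlgebraicIndependent (gn (ad E {u}) c) a1 :=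
      (indep_sum_iff.1 (indep_swap (indep_sum_iff.2 ⟨h6, h8⟩))).2
    refine pure h9 ?_ h2
    have hu' : u ∈ gn (gn (ad E {u}) c) a1 := le_gn (le_gn mem_adE)
    have h10 : ∀ i, a0 i ∈ gn (gn (ad E {u}) c) a1 := by
      intro i
      have e1 : a0 i = c i - u * a1 i := by rw [hc]; ring
      rw [e1]
      exact Subfield.sub_mem _ (le_gn (mem_gn i)) (Subfield.mul_mem _ hu' (mem_gn i))
    refine (?_ : gn _ _ ≤ gn _ _) s3
    refine gn_le (le_ad.trans (le_gn.trans le_gn)) ?_
    rintro ((i | i) | (i | i) | i)
    · exact h10 0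
    · exact mem_gn (x := a1) 0
    · exact h10 i.succ
    · exact mem_gn (x := a1) i.succ
    · exact hu'

end planeN

end Pool.Agent.OPN
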