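import Pool.Agent.Helper13.OPN.C
import Pool.Agent.Helper13.TD.R0

/-!
# Project OPN: the core
-/

universe u v w

namespace Pool.Agent.OPN

open Polynomial Pool.Agent.Helper37.UL

variable {S : Type u} [Field S] [IsAlgClosed S] [CharZero S]

/-- **The generic line**, any finite set of coordinates. -/
theorem planeI {ι : Type v} [Finite ι] {E : Subfield S} (hE : ∀ z : S, IsAlgebraic E z → z ∈ E)
    {a0 a1 : ι → S} {u y : S} (ha : AlgebraicIndependent E (Sum.elim a0 a1))
    (hu : Transcendental (gn E (Sum.elim a0 a1)) u)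
    (h1 : y ∈ ad (acl (gn E (Sum.elim a0 a1))) {u})
    (h2 : IsAlgebraic (gn (ad E {u}) (fun i => a0 i + u * a1 i)) y) :
    y ∈ gn (ad E {u}) (fun i => a0 i + u * a1 i) := by
  obtain ⟨n, ⟨e⟩⟩ := Finite.exists_equiv_fin ι
  have e1 : Sum.elim (a0 ∘ e.symm) (a1 ∘ e.symm) = Sum.elim a0 a1 ∘ (Equiv.sumCongr e.symm e.symm) := by
    funext i
    rcases i with i | i <;> rfl
  have e2 : (fun i => (a0 ∘ e.symm) i + u * (a1 ∘ e.symm) i) =
      (fun i => a0 i + u * a1 i) ∘ e.symm := rfl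
  have h3 := planeN n (a0 := a0 ∘ e.symm) (a1 := a1 ∘ e.symm) (u := u) (y := y) hE
    (by rw [e1]; exact ha.comp _ (Equiv.injective _)) (by rw [e1, gn_comp]; exact hu)
    (by rw [e1, gn_comp]; exact h1) (by rw [e2, gn_comp]; exact h2)
  rwa [e2, gn_comp] at h3

/-- **The core.** -/
theorem core {FS Φ M : Subfield S} (hFΦ : FS ≤ Φ) {u q : S} (hu : Transcendental Φ u)
    (hq : IsAlgebraic (ad FS {u}) q) {I : Type v} [Finite I] {l : ℕ} {a : I × Fin (l + 1) → S}
    (haΦ : ∀ p, a p ∈ Φ) (ha : AlgebraicIndependent FS a) {v : Fin (l + 1) → S}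
    (hv : ∀ e, v e ∈ ad (ad FS {u}) {q}) {i₀ j₀ : Fin (l + 1)} (hij : i₀ ≠ j₀) (hvi : v i₀ = u)
    (hvj : v j₀ = 1) (hM : ad (ad FS {u}) {q} ≤ M) (hΦM : Φ ≤ M)
    (hMrel : ∀ z ∈ M, IsAlgebraic (ad (ad FS {u}) {q}) z → z ∈ ad (ad FS {u}) {q})
    (hMΦ : ∀ z ∈ M, IsAlgebraic (ad (ad Φ {u}) {q}) z → z ∈ ad (ad Φ {u}) {q})
    {y : S} (hyM : y ∈ M)
    (hy : IsAlgebraic (gn (ad (ad FS {u}) {q}) (fun i => ∑ e, a (i, e) * v e)) y) :
    y ∈ gn (ad (ad FS {u}) {q}) (fun i => ∑ e, a (i, e) * v e) := by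
  classical
  set F1 := ad (ad FS {u}) {q} with hF1
  set c : I → S := fun i => ∑ e, a (i, e) * v e with hc
  -- the coordinates
  let J := {p : I × Fin (l + 1) // p.2 ≠ i₀ ∧ p.2 ≠ j₀}
  let b : J → S := fun p => a p.1
  let a0 : I → S := fun i => a (i, j₀)
  let a1 : I → S := fun i => a (i, i₀)
  have hba : AlgebraicIndependent FS (Sum.elim b (Sum.elim a0 a1)) := by
    let e : J ⊕ (I ⊕ I) → I × Fin (l + 1) :=
      Sum.elim (fun p => p.1) (Sum.elim (fun i => (i, j₀)) fun i => (i, i₀))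
    have he : Function.Injective e := by
      rintro (p | i | i) (p' | i' | i') h
      · exact congrArg Sum.inl (Subtype.ext h)
      · exact absurd (congrArg Prod.snd h) p.2.2
      · exact absurd (congrArg Prod.snd h) p.2.1
      · exact absurd (congrArg Prod.snd h).symm p'.2.2
      · have h1 : i = i' := congrArg Prod.fst h
        rw [h1]
      · exact absurd (congrArg Prod.snd h).symm hij
      · exact absurd (congrArg Prod.snd h).symm p'.2.1
      · exact absurd (congrArg Prod.snd h) hij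
      · have h1 : i = i' := congrArg Prod.fst h
        rw [h1]
    have h1 := ha.comp e he
    convert h1 using 1
    funext i
    rcases i with i | i | i <;> rfl
  set E1 := acl FS with hE1
  set E2 := acl (gn FS b) with hE2
  have hE1cl : ∀ z : S, IsAlgebraic E1 z → z ∈ E1 := fun z hz => acl_closed hz
  have hE2cl : ∀ z : S, IsAlgebraic E2 z → z ∈ E2 := fun z hz => acl_closed hz
  have hE12 : E1 ≤ E2 := acl_mono le_gn
  have hE2Φ : E2 ≤ acl Φ := acl_mono (gn_le hFΦ fun p => haΦ _)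
  have hFE2 : FS ≤ E2 := le_gn.trans le_acl
  have huΦ : Transcendental (acl Φ) u := tr_acl hu
  have huE2 : Transcendental E2 u := tr_mono hE2Φ huΦ
  have ha01 : AlgebraicIndependent E2 (Sum.elim a0 a1) :=
    indep_acl (indep_sum_iff.1 (indep_swap hba)).2
  have hΦ01 : gn E2 (Sum.elim a0 a1) ≤ acl Φ :=
    gn_le hE2Φ (by rintro (i | i) <;> exact le_acl (haΦ _))
  have hq2 : IsAlgebraic (ad E2 {u}) q := isAlgebraic_mono (ad_mono hFE2 le_rfl) hq
  -- the equation of `c`
  let cc : I → S := fun i => a0 i + u * a1 i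
  let ww : I → S := fun i => ∑ e ∈ Finset.univ.filter fun e => e ≠ i₀ ∧ e ≠ j₀, a (i, e) * v e
  have hccw : ∀ i, c i = cc i + ww i := by
    intro i
    have h1 : c i = ∑ e ∈ Finset.univ.filter (fun e => e ≠ i₀ ∧ e ≠ j₀), a (i, e) * v e +
        ∑ e ∈ Finset.univ.filter (fun e => ¬ (e ≠ i₀ ∧ e ≠ j₀)), a (i, e) * v e :=
      (Finset.sum_filter_add_sum_filter_not _ _ _).symm
    have h2 : Finset.univ.filter (fun e => ¬ (e ≠ i₀ ∧ e ≠ j₀)) = {j₀, i₀} := by
      ext e
      simp only [Finset.mem_filter, Finset.mem_univ, true_and, Finset.mem_insert,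
        Finset.mem_singleton]
      tauto
    rw [h1, h2, Finset.sum_pair hij.symm, hvi, hvj]
    simp only [cc, ww, a0, a1]
    ring
  have hww : ∀ i, ww i ∈ ad (ad E2 {u}) {q} := by
    intro i
    refine Subfield.sum_mem _ fun e he => Subfield.mul_mem _ ?_ ?_
    · rw [Finset.mem_filter] at he
      exact le_ad (le_ad (le_acl (mem_gn (x := b) (⟨(i, e), he.2⟩ : J))))
    · exact (ad_mono (ad_mono hFE2 le_rfl) le_rfl : F1 ≤ _) (hv e)
  -- first step: over `E2`
  have hD0 : ∀ z ∈ ad (acl Φ) {u}, IsAlgebraic (gn (ad E2 {u}) cc) z → z ∈ gn (ad E2 {u}) cc := by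
    intro z hz halg
    have h1 : z ∈ ad (acl (gn E2 (Sum.elim a0 a1))) {u} := by
      refine gauss_ad (acl_le hΦ01) (fun x _ hx => acl_closed hx) huΦ z hz ?_
      refine isAlgebraic_mono ?_ halg
      refine gn_le (ad_mono (le_gn.trans le_acl) le_rfl) fun i => ?_
      refine Subfield.add_mem _ ?_ (Subfield.mul_mem _ mem_adE ?_)
      · exact le_ad (le_acl (mem_gn (x := Sum.elim a0 a1) (Sum.inl i)))
      · exact le_ad (le_acl (mem_gn (x := Sum.elim a0 a1) (Sum.inr i)))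
    exact planeI hE2cl ha01 (tr_mono hΦ01 huΦ) h1 halg
  have hcc1 : gn (ad E2 {u}) cc ≤ ad (acl Φ) {u} := by
    refine gn_le (ad_mono hE2Φ le_rfl) fun i => ?_
    exact Subfield.add_mem _ (le_ad (le_acl (haΦ _)))
      (Subfield.mul_mem _ mem_adE (le_ad (le_acl (haΦ _))))
  have hyΦ : y ∈ ad (ad Φ {u}) {q} := by
    refine hMΦ y hyM (isAlgebraic_mono ?_ hy)
    have h1 : F1 ≤ ad (ad Φ {u}) {q} := ad_mono (ad_mono hFΦ le_rfl) le_rfl
    exact gn_le h1 fun i => Subfield.sum_mem _ fun e _ =>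
      Subfield.mul_mem _ (le_ad (le_ad (haΦ _))) (h1 (hv e))
  have hs1 : y ∈ ad (gn (ad E2 {u}) cc) {q} := by
    refine TD.relClosed_adjoin hcc1 hD0 (isAlgebraic_mono le_gn hq2) y ?_ ?_
    · exact (ad_mono (ad_mono le_acl le_rfl) le_rfl : ad (ad Φ {u}) {q} ≤ _) hyΦ
    · refine isAlgebraic_mono ?_ hy
      have h1 : ad (ad E2 {u}) {q} ≤ ad (gn (ad E2 {u}) cc) {q} := ad_mono le_gn le_rfl
      refine gn_le ((ad_mono (ad_mono hFE2 le_rfl) le_rfl : F1 ≤ _).trans h1) fun i => ?_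
      rw [hccw]
      exact Subfield.add_mem _ (le_ad (mem_gn i)) (h1 (hww i))
  have hs2 : y ∈ gn (ad (ad E2 {u}) {q}) c := by
    refine (?_ : ad _ _ ≤ gn _ _) hs1
    refine ad_le (gn_le (le_ad.trans le_gn) fun i => ?_) ?_
    · have h1 : cc i = c i - ww i := by rw [hccw]; ring
      rw [h1]
      exact Subfield.sub_mem _ (mem_gn i) (le_gn (hww i))
    · intro z hz
      rw [Set.mem_singleton_iff.1 hz]
      exact le_gn mem_adE
  -- second step: over `E1`
  have hindc : AlgebraicIndependent (ad (ad E2 {u}) {q}) c := by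
    have h5 : AlgebraicIndependent (ad E2 {u}) (Sum.elim a0 a1) := by
      have h6 := indep_swap (indep_sum_iff.2 ⟨ha01, indep_one.2 (tr_mono hΦ01 huΦ)⟩)
      have h7 := (indep_sum_iff.1 h6).2
      rwa [gn_one] at h7
    have h8 : AlgebraicIndependent (gn (ad E2 {u}) a1) cc :=
      indep_add (indep_sum_iff.1 h5).2 fun i => Subfield.mul_mem _ (le_gn mem_adE) (mem_gn i)
    have h9 : AlgebraicIndependent (acl (ad E2 {u})) cc := indep_acl (indep_mono le_gn h8)
    have h10 : ad (ad E2 {u}) {q} ≤ acl (ad E2 {u}) := by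
      refine ad_le le_acl ?_
      rintro _ rfl
      exact mem_acl.2 hq2
    have h11 := indep_add (indep_mono h10 h9) hww
    have h12 : c = fun i => cc i + ww i := funext hccw
    rw [h12]
    exact h11
  have hs3 : y ∈ gn (ad (ad E1 {u}) {q}) c := by
    refine gauss (ad_mono (ad_mono hE12 le_rfl) le_rfl) ?_ hindc hs2 ?_
    · exact TD.relClosed_adjoin (ad_mono hE12 le_rfl)
        (gauss_ad hE12 (fun z _ hz => hE1cl z hz) huE2)
        (isAlgebraic_mono (ad_mono le_acl le_rfl) hq)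
    · exact isAlgebraic_mono (gn_mono (ad_mono (ad_mono le_acl le_rfl) le_rfl)) hy
  -- third step: descent to `FS`
  refine desc (K := acl FS ⊓ M) (L := gn F1 c) (M := M) (A := acl FS) ?_ ?_ ?_ ?_ hyM ?_
  · intro z hz
    refine le_gn (hMrel z hz.2 (isAlgebraic_mono (le_ad.trans le_ad) (mem_acl.1 hz.1)))
  · exact gn_le hM fun i => Subfield.sum_mem _ fun e _ =>
      Subfield.mul_mem _ (hΦM (haΦ _)) (hM (hv e))
  · intro z hz halg
    refine ⟨?_, hz⟩
    exact acl_closed (isAlgebraic_mono inf_le_left halg)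
  · intro z hz
    exact isAlgebraic_mono (le_inf le_acl (hFΦ.trans hΦM)) (mem_acl.1 hz)
  · refine (?_ : gn (ad (ad E1 {u}) {q}) c ≤ _) hs3
    have hL : ∀ z ∈ gn F1 c, z ∈ Subfield.closure ((gn F1 c : Set S) ∪ (acl FS : Set S)) :=
      fun z hz => Subfield.subset_closure (Or.inl hz)
    refine gn_le (ad_le (ad_le (fun z hz => Subfield.subset_closure (Or.inr hz)) ?_) ?_) ?_
    · intro z hz
      rw [Set.mem_singleton_iff.1 hz]
      exact hL _ (le_gn (le_ad mem_adE))
    · intro z hz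
      rw [Set.mem_singleton_iff.1 hz]
      exact hL _ (le_gn mem_adE)
    · exact fun i => hL _ (mem_gn i)

end Pool.Agent.OPN
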