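import Pool.Agent.Helper10.UL.GaussN
import Pool.Agent.Helper37.UL.Star3
import Pool.Agent.Helper13.PL.NF5

/-!
# Project OPN: separation of variables for algebraic functions
-/

universe u v w

namespace Pool.Agent.OPN

open Polynomial Pool.Agent.Helper37.UL

section basics

variable {S : Type u} [Field S]

/-- the field generated over `K` by a family -/
def gn (K : Subfield S) {ι : Type v} (x : ι → S) : Subfield S :=
  Subfield.closure ((K : Set S) ∪ Set.range x)

/-- the algebraic closure of `K` in `S` -/
def acl (K : Subfield S) : Subfield S := (algebraicClosure K S).toSubfield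

variable {K L M : Subfield S} {ι : Type v} {κ : Type w} {x : ι → S} {y : κ → S}

theorem le_gn : K ≤ gn K x := fun _ h => Subfield.subset_closure (Or.inl h)

theorem mem_gn (i : ι) : x i ∈ gn K x := Subfield.subset_closure (Or.inr ⟨i, rfl⟩)

theorem gn_le (h1 : K ≤ L) (h2 : ∀ i, x i ∈ L) : gn K x ≤ L := by
  unfold gn
  rw [Subfield.closure_le, Set.union_subset_iff]
  refine ⟨h1, ?_⟩
  rintro _ ⟨i, rfl⟩
  exact h2 i

theorem gn_mono (h : K ≤ L) : gn K x ≤ gn L x := gn_le (h.trans le_gn) mem_gn

theorem mem_acl {z : S} : z ∈ acl K ↔ IsAlgebraic K z := mem_algebraicClosure_iff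

theorem le_acl : K ≤ acl K := fun z hz => mem_acl.2 (isAlgebraic_algebraMap (⟨z, hz⟩ : K))

theorem acl_closed {z : S} (h : IsAlgebraic (acl K) z) : z ∈ acl K :=
  mem_acl.2 (PL.alg_trans (fun _ hy => mem_acl.1 hy) h)

theorem acl_mono (h : K ≤ L) : acl K ≤ acl L := fun _ hz =>
  mem_acl.2 (isAlgebraic_mono h (mem_acl.1 hz))

theorem acl_le (h : K ≤ acl L) : acl K ≤ acl L := fun _ hz =>
  acl_closed (isAlgebraic_mono h (mem_acl.1 hz))

theorem gn_eq_gen {n : ℕ} {x : Fin n → S} : gn K x = gen K x := rfl

theorem adjoin_toSubfield_gn : (IntermediateField.adjoin K (Set.range x)).toSubfield = gn K x := by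
  rw [IntermediateField.adjoin_toSubfield]
  unfold gn
  congr 1
  ext z
  constructor
  · rintro (⟨c, rfl⟩ | hz)
    · exact Or.inl c.2
    · exact Or.inr hz
  · rintro (hz | hz)
    · exact Or.inl ⟨⟨z, hz⟩, rfl⟩
    · exact Or.inr hz

theorem indep_congr (h : K = L) (hx : AlgebraicIndependent K x) : AlgebraicIndependent L x := by
  subst h
  exact hx

/-- independence in two steps -/
theorem indep_sum_iff : AlgebraicIndependent K (Sum.elim y x) ↔
    AlgebraicIndependent K x ∧ AlgebraicIndependent (gn K x) y := by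
  rw [AlgebraicIndependent.sumElim_iff, ← IntermediateField.algebraicIndependent_adjoin_iff]
  refine and_congr_right fun _ => ⟨fun h => ?_, fun h => ?_⟩
  · have h1 : AlgebraicIndependent (IntermediateField.adjoin K (Set.range x)).toSubfield y := h
    exact indep_congr adjoin_toSubfield_gn h1
  · have h1 : AlgebraicIndependent (IntermediateField.adjoin K (Set.range x)).toSubfield y :=
      indep_congr adjoin_toSubfield_gn.symm h
    exact h1

theorem indep_acl (h : AlgebraicIndependent K x) : AlgebraicIndependent (acl K) x := by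
  have h1 : AlgebraicIndependent (algebraicClosure K S) x := h.algebraicClosure
  exact h1

theorem indep_mono (h : K ≤ L) (hx : AlgebraicIndependent L x) : AlgebraicIndependent K x :=
  PL.algInd_mono h hx

/-- Gauss' lemma for a finite family -/
theorem gauss [CharZero S] [Finite ι] (h : K ≤ M) (hrel : ∀ z ∈ M, IsAlgebraic K z → z ∈ K)
    (hx : AlgebraicIndependent M x) {z : S} (hz : z ∈ gn M x) (halg : IsAlgebraic (gn K x) z) :
    z ∈ gn K x := by
  obtain ⟨n, ⟨e⟩⟩ := Finite.exists_equiv_fin ι
  have h1 : ∀ N : Subfield S, gn N x = gen N (x ∘ e.symm) := by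
    intro N
    unfold gn gen
    rw [e.symm.surjective.range_comp]
  rw [h1] at hz halg ⊢
  exact UL.gauss_n h hrel (hx.comp _ e.symm.injective) hz halg

end basics

section pure

variable {S : Type u} [Field S] {K L M : Subfield S}

theorem pure_one {T : S} (hT : Transcendental K T) {z : S} (hz : z ∈ gen K ![T])
    (halg : IsAlgebraic K z) : z ∈ K := by
  obtain ⟨P, Q, hQ, h⟩ := (TH.mem_gen_one hT).1 hz
  have hT' : Transcendental (acl K) T := fun h1 => hT (mem_acl.1 (acl_closed h1))
  let φ : K →+* acl K := Subfield.inclusion le_acl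
  let zA : acl K := ⟨z, mem_acl.2 halg⟩
  have h1 : aeval T (Q.map φ * C zA - P.map φ) = 0 := by
    have e1 : ∀ R : K[X], aeval T (R.map φ) = aeval T R := by
      intro R
      rw [aeval_def, eval₂_map, aeval_def]
      rfl
    rw [map_sub, map_mul, e1, e1, aeval_C]
    change aeval T Q * z - aeval T P = 0
    rw [h, sub_self]
  have h2 := transcendental_iff.1 hT' _ h1
  obtain ⟨i, hi⟩ : ∃ i, Q.coeff i ≠ 0 := by
    by_contra hcon
    push Not at hcon
    exact hQ (Polynomial.ext fun i => by rw [hcon i, coeff_zero])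
  have h3 := congrArg (fun R => R.coeff i) h2
  simp only [coeff_sub, coeff_mul_C, coeff_map, coeff_zero] at h3
  have h4 := congrArg (Subtype.val : acl K → S) h3
  change ((Q.coeff i : K) : S) * z - ((P.coeff i : K) : S) = 0 at h4
  have h5 : ((Q.coeff i : K) : S) ≠ 0 := fun h => hi (Subtype.ext h)
  have h6 : z = ((P.coeff i : K) : S) / ((Q.coeff i : K) : S) := by
    rw [eq_div_iff h5, mul_comm]
    exact sub_eq_zero.1 h4
  rw [h6]
  exact Subfield.div_mem _ (P.coeff i).2 (Q.coeff i).2

theorem pure_n {n : ℕ} {τ : Fin n → S} (hτ : AlgebraicIndependent K τ) {z : S}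
    (hz : z ∈ gen K τ) (halg : IsAlgebraic K z) : z ∈ K := by
  induction n generalizing z with
  | zero => rwa [UL.gen_zero] at hz
  | succ n ih =>
    rw [UL.gen_succ] at hz
    exact ih (hτ.comp Fin.succ (Fin.succ_injective n)) (pure_one (UL.transc_gen hτ) hz
      (isAlgebraic_mono le_gen halg)) halg

/-- a field is relatively algebraically closed in a purely transcendental extension -/
theorem pure {ι : Type v} [Finite ι] {x : ι → S} (hx : AlgebraicIndependent K x) {z : S}
    (hz : z ∈ gn K x) (halg : IsAlgebraic K z) : z ∈ K := by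
  obtain ⟨n, ⟨e⟩⟩ := Finite.exists_equiv_fin ι
  have h1 : gn K x = gen K (x ∘ e.symm) := by
    unfold gn gen
    rw [e.symm.surjective.range_comp]
  rw [h1] at hz
  exact pure_n (hx.comp _ e.symm.injective) hz halg

/-- **Descent.**  `K` is relatively algebraically closed in `M`, `K ≤ L ≤ M`, then `M` and the field generated
by `L` and elements which are algebraic over `K` intersect in `L`. -/
theorem desc [IsAlgClosed S] [CharZero S] (hKL : K ≤ L) (hLM : L ≤ M)
    (hrel : ∀ x ∈ M, IsAlgebraic K x → x ∈ K) {A : Set S} (hA : ∀ x ∈ A, IsAlgebraic K x) {y : S}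
    (hyM : y ∈ M) (hy : y ∈ Subfield.closure ((L : Set S) ∪ A)) : y ∈ L := by
  classical
  have h1 : y ∈ IntermediateField.adjoin L A := by
    rw [← IntermediateField.mem_toSubfield, IntermediateField.adjoin_toSubfield]
    refine Subfield.closure_mono (Set.union_subset_union_left _ ?_) hy
    intro x hx
    exact ⟨⟨x, hx⟩, rfl⟩
  obtain ⟨T, hT, hyT⟩ := IntermediateField.exists_finset_of_mem_adjoin h1
  obtain ⟨β, hβ, -, hβx⟩ := exists_prim (B := K) (fun x : T => (x : S)) fun x => hA _ (hT x.2)
  have h2 : y ∈ Subfield.closure ((L : Set S) ∪ {β}) := by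
    rw [← IntermediateField.mem_toSubfield, IntermediateField.adjoin_toSubfield] at hyT
    refine (?_ : Subfield.closure _ ≤ Subfield.closure _) hyT
    rw [Subfield.closure_le]
    rintro x (⟨x, rfl⟩ | hx)
    · exact Subfield.subset_closure (Or.inl x.2)
    · obtain ⟨P, hP⟩ := hβx x (Subfield.subset_closure (Or.inr ⟨⟨x, hx⟩, rfl⟩))
      have h3 : K ≤ Subfield.closure ((L : Set S) ∪ {β}) := fun z hz =>
        Subfield.subset_closure (Or.inl (hKL hz))
      have h4 : β ∈ Subfield.closure ((L : Set S) ∪ {β}) := Subfield.subset_closure (Or.inr rfl)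
      have h5 := aeval_mem h3 h4 P
      rw [← hP] at h5
      exact h5
  obtain ⟨r, hr⟩ := exists_coords (k0 := K) (Kst := L) hKL hβ rfl h2
  have hn : 0 < (minpoly K β).natDegree := minpoly.natDegree_pos hβ.isIntegral
  let i₀ : Fin (minpoly K β).natDegree := ⟨0, hn⟩
  have h3 := powers_indep (k0 := K) (Kst := M) (hKL.trans hLM) hrel hβ rfl
    (s := fun i => (r i : S) - if i = i₀ then y else 0) (fun i => by
      refine Subfield.sub_mem _ (hLM (r i).2) ?_
      split_ifs
      · exact hyM
      · exact Subfield.zero_mem _) (by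
      simp only [sub_mul, Finset.sum_sub_distrib]
      rw [← hr, Finset.sum_eq_single i₀]
      · rw [if_pos rfl]
        simp [i₀]
      · intro i _ hi
        rw [if_neg hi, zero_mul]
      · intro h
        exact absurd (Finset.mem_univ _) h)
  have h4 := congrFun h3 i₀
  simp only [if_true, Pi.zero_apply] at h4
  rw [← sub_eq_zero.1 h4]
  exact (r i₀).2

end pure

section sep

variable {S : Type u} [Field S] [IsAlgClosed S] [CharZero S] {E : Subfield S} {ι κ ω : Type v}
  [Finite ι] [Finite ω] {t : ι → S} {p : κ → S} {w : ω → S}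

/-- **Separation of variables.** -/
theorem sep (hE : ∀ z : S, IsAlgebraic E z → z ∈ E)
    (htw : AlgebraicIndependent (gn E p) (Sum.elim t w)) {y : S}
    (h1 : y ∈ gn (acl (gn E t)) (Sum.elim p w)) (h2 : y ∈ gn (acl (gn E p)) (Sum.elim t w)) :
    y ∈ gn E (Sum.elim t (Sum.elim p w)) := by
  have hEB : E ≤ acl (gn E p) := le_gn.trans le_acl
  have htwB : AlgebraicIndependent (acl (gn E p)) (Sum.elim t w) := indep_acl htw
  have htwE : AlgebraicIndependent E (Sum.elim t w) := indep_mono le_gn htw
  have hwt : AlgebraicIndependent (gn E t) w := by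
    have h3 : AlgebraicIndependent E (Sum.elim w t) := by
      have h4 := htwE.comp (Sum.swap) Sum.swap_leftInverse.injective
      convert h4 using 1
      funext i
      rcases i with i | i <;> rfl
    exact (indep_sum_iff.1 h3).2
  refine desc (K := gn E t) (M := gn (acl (gn E p)) (Sum.elim t w)) (A := acl (gn E t)) ?_ ?_ ?_
    (fun x hx => mem_acl.1 hx) h2 ?_
  · exact gn_le le_gn fun i => mem_gn (x := Sum.elim t (Sum.elim p w)) (Sum.inl i)
  · refine gn_le (hEB.trans le_gn) ?_
    rintro (i | i | i)
    · exact mem_gn (x := Sum.elim t w) (Sum.inl i)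
    · exact le_gn (le_acl (mem_gn i))
    · exact mem_gn (x := Sum.elim t w) (Sum.inr i)
  · intro x hx hxalg
    have h3 : IsAlgebraic (gn E (Sum.elim t w)) x := by
      refine isAlgebraic_mono ?_ hxalg
      exact gn_le le_gn fun i => mem_gn (x := Sum.elim t w) (Sum.inl i)
    have h4 := gauss hEB (fun z _ hz => hE z hz) htwB hx h3
    refine pure hwt ?_ hxalg
    refine gn_le (le_gn.trans le_gn) ?_ h4
    rintro (i | i)
    · exact le_gn (mem_gn i)
    · exact mem_gn i
  · refine (?_ : gn (acl (gn E t)) (Sum.elim p w) ≤ _) h1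
    refine gn_le (fun x hx => Subfield.subset_closure (Or.inr hx)) ?_
    rintro (i | i)
    · exact Subfield.subset_closure (Or.inl (mem_gn (x := Sum.elim t (Sum.elim p w)) (Sum.inr (Sum.inl i))))
    · exact Subfield.subset_closure (Or.inl (mem_gn (x := Sum.elim t (Sum.elim p w)) (Sum.inr (Sum.inr i))))

end sep

end Pool.Agent.OPN
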