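import Pool.Agent.Helper13.OPN.D
import Pool.Agent.Helper10.UL.Thin
import Pool.Agent.Helper10.RR.TrW
import Pool.Agent.Helper13.HZ.Transport

/-!
# Project OPN: the core in the ultrapower
-/

universe u v w

namespace Pool.Agent.OPN

open Polynomial Pool.Agent.Helper37.UL

section up

variable {J : Type v} {U : Ultrafilter J} {C : Type u} [Field C] {S : Type w} [Field S]
  {π : (J → C) →+* S} (h : UP U π)

include h

/-- The constants of a field are relatively algebraically closed in its ultrapower. -/
theorem cst_rac {Y : Subfield C} {z : S} (hz : z ∈ h.gsub Y)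
    (halg : IsAlgebraic (Y.map (UP.cst π)) z) : z ∈ Y.map (UP.cst π) := by
  classical
  obtain ⟨f, hf, rfl⟩ := hz
  obtain ⟨n, c, hc, hc0, hcx⟩ := isAlgebraic_iff.mp halg
  choose b hb hbc using hc
  let B : C[X] := ∑ i : Fin (n + 1), Polynomial.C (b i) * X ^ (i : ℕ)
  have hB : B ≠ 0 := by
    intro h0
    apply hc0
    funext j
    have h1 := congrArg (fun q => q.coeff j) h0
    simp only [B, finsetSum_coeff, coeff_C_mul, coeff_X_pow, coeff_zero] at h1
    rw [Finset.sum_eq_single j] at h1
    · simp only [if_true, mul_one] at h1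
      rw [← hbc j, h1, map_zero]
      rfl
    · intro l _ hl
      rw [if_neg, mul_zero]
      intro h2
      exact hl (Fin.ext h2.symm)
    · intro h2
      exact absurd (Finset.mem_univ _) h2
  have h1 : π (∑ i : Fin (n + 1), (fun _ => b i) * f ^ (i : ℕ)) = 0 := by
    rw [map_sum, ← hcx]
    refine Finset.sum_congr rfl fun i _ => ?_
    rw [map_mul, map_pow, ← hbc i]
    rfl
  rw [h.eq0] at h1
  have h2 : ∀ᶠ a in (U : Filter J), ∃ r ∈ (B.roots.toFinset : Set C), f a = r := by
    filter_upwards [h1] with a ha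
    refine ⟨f a, ?_, rfl⟩
    rw [Finset.mem_coe, Multiset.mem_toFinset, mem_roots hB, IsRoot.def]
    simp only [B, eval_finsetSum, eval_mul, eval_C, eval_pow, eval_X]
    simp only [Finset.sum_apply, Pi.mul_apply, Pi.pow_apply] at ha
    exact ha
  rw [Ultrafilter.eventually_exists_mem_iff (Finset.finite_toSet _)] at h2
  obtain ⟨r, -, hr⟩ := h2
  obtain ⟨a, ha⟩ := hr.exists
  refine ⟨r, ?_, ?_⟩
  · rw [← ha]
    exact hf a
  · change π (fun _ => r) = π f
    rw [h.eq_iff]
    filter_upwards [hr] with a ha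
    exact ha.symm

end up

section map

variable {C : Type u} [Field C] {S : Type w} [Field S]

theorem map_ad (φ : C →+* S) (K : Subfield C) (X : Set C) :
    (ad K X).map φ = ad (K.map φ) (φ '' X) := by
  unfold ad
  rw [RingHom.map_field_closure, Set.image_union]
  rfl

theorem alg_of_map (φ : C →+* S) {L : Subfield C} {x : C} (h : IsAlgebraic (L.map φ) (φ x)) :
    IsAlgebraic L x := by
  obtain ⟨n, c, hc, hc0, hcx⟩ := isAlgebraic_iff.mp h
  choose b hb hbc using hc
  refine isAlgebraic_iff.mpr ⟨n, b, hb, ?_, ?_⟩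
  · intro h0
    apply hc0
    funext i
    rw [← hbc i, h0]
    exact map_zero φ
  · apply φ.injective
    rw [map_zero, map_sum, ← hcx]
    refine Finset.sum_congr rfl fun i _ => ?_
    rw [map_mul, map_pow, hbc]

theorem map_ad1 (φ : C →+* S) (K : Subfield C) (x : C) :
    (ad K {x}).map φ = ad (K.map φ) {φ x} := by
  rw [map_ad, Set.image_singleton]

end map

section transfer

/-- Structure of a finitely generated field `F₁` with an element `T` transcendental over `F`. -/
theorem exists_struct {F F₁ C : Type u} [Field F] [Field F₁] [Field C] [CharZero C] [Algebra F F₁]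
    [Algebra F₁ C] (hF₁ : ∃ S : Finset F₁, Subfield.closure (S : Set F₁) = ⊤) {T : F₁}
    (hT : Transcendental F T) : ∃ (Fh : Subfield C) (q : C),
      (∀ x : F, algebraMap F₁ C (algebraMap F F₁ x) ∈ Fh) ∧
      Transcendental Fh (algebraMap F₁ C T) ∧ IsAlgebraic (ad Fh {algebraMap F₁ C T}) q ∧
      (algebraMap F₁ C).fieldRange = ad (ad Fh {algebraMap F₁ C T}) {q} := by
  classical
  obtain ⟨n, s, -, hTs, hfin⟩ := RR.exists_tower hF₁ hT
  set A := IntermediateField.adjoin F (Set.range s) with hA
  set B := IntermediateField.adjoin A {T} with hB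
  have hchar : CharZero F₁ := ⟨fun a b hab => by
    have h1 := congrArg (algebraMap F₁ C) hab
    rw [map_natCast, map_natCast] at h1
    exact_mod_cast h1⟩
  obtain ⟨q, hq⟩ := Field.exists_primitive_element B F₁
  let φ := algebraMap F₁ C
  have hBs : B.toSubfield = ad A.toSubfield {T} := by
    rw [hB, IntermediateField.adjoin_toSubfield]
    unfold ad
    congr 1
    ext z
    constructor
    · rintro (⟨c, rfl⟩ | hz)
      · exact Or.inl c.2
      · exact Or.inr hz
    · rintro (hz | hz)
      · exact Or.inl ⟨⟨z, hz⟩, rfl⟩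
      · exact Or.inr hz
  have htop : ad B.toSubfield {q} = ⊤ := by
    have h1 : (IntermediateField.adjoin B {q}).toSubfield = ⊤ := by
      rw [hq]
      rfl
    rw [← h1, IntermediateField.adjoin_toSubfield]
    unfold ad
    congr 1
    ext z
    constructor
    · rintro (hz | hz)
      · exact Or.inl ⟨⟨z, hz⟩, rfl⟩
      · exact Or.inr hz
    · rintro (⟨c, rfl⟩ | hz)
      · exact Or.inl c.2
      · exact Or.inr hz
  refine ⟨A.toSubfield.map φ, φ q, ?_, ?_, ?_, ?_⟩
  · intro x
    exact ⟨algebraMap F F₁ x, A.algebraMap_mem x, rfl⟩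
  · intro halg
    have h1 : IsAlgebraic A.toSubfield T := alg_of_map φ halg
    exact hTs h1
  · have h1 : IsAlgebraic B q := Algebra.IsAlgebraic.isAlgebraic q
    have h2 : IsAlgebraic B.toSubfield q := h1
    refine HZ.alg_map φ (L := B.toSubfield) ?_ h2
    intro x hx
    rw [← map_ad1, ← hBs]
    exact ⟨x, hx, rfl⟩
  · rw [← map_ad1, ← map_ad1, ← hBs, htop]
    exact RingHom.fieldRange_eq_map _

end transfer

end Pool.Agent.OPN
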