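import Pool.Agent.Helper13.OPN.A

/-!
# Project OPN: algebraic functions which are rational on the generic line
-/

universe u v w

namespace Pool.Agent.OPN

open Polynomial Pool.Agent.Helper37.UL

section ad

variable {S : Type u} [Field S] {K L M : Subfield S} {X Y : Set S}

/-- the field generated over `K` by a set -/
def ad (K : Subfield S) (X : Set S) : Subfield S := Subfield.closure ((K : Set S) ∪ X)

theorem le_ad : K ≤ ad K X := fun _ h => Subfield.subset_closure (Or.inl h)

theorem mem_ad {z : S} (h : z ∈ X) : z ∈ ad K X := Subfield.subset_closure (Or.inr h)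

theorem ad_le (h1 : K ≤ L) (h2 : ∀ z ∈ X, z ∈ L) : ad K X ≤ L := by
  unfold ad
  rw [Subfield.closure_le, Set.union_subset_iff]
  exact ⟨h1, h2⟩

theorem ad_mono (h : K ≤ L) (hX : X ⊆ Y) : ad K X ≤ ad L Y :=
  ad_le (h.trans le_ad) fun _ hz => mem_ad (hX hz)

theorem gen_one {z : S} : gen K ![z] = ad K {z} := by
  unfold gen ad
  rw [Matrix.range_cons, Matrix.range_empty, Set.union_empty]

theorem tr_mono (h : K ≤ L) {z : S} (hz : Transcendental L z) : Transcendental K z := fun h1 =>
  hz (isAlgebraic_mono h h1)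

theorem tr_acl {z : S} (hz : Transcendental K z) : Transcendental (acl K) z := fun h1 =>
  hz (mem_acl.1 (acl_closed h1))

theorem alg_mem {z : S} (hz : z ∈ K) : IsAlgebraic K z := isAlgebraic_algebraMap (⟨z, hz⟩ : K)

theorem tr_add {z d : S} (hz : Transcendental K z) (hd : d ∈ K) : Transcendental K (z + d) := by
  intro h
  apply hz
  have h1 : z = (z + d) - d := by ring
  rw [h1]
  exact h.sub (alg_mem hd)

theorem tr_mul {z d : S} (hz : Transcendental K z) (hd : d ∈ K) (hd0 : d ≠ 0) :
    Transcendental K (z * d) := by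
  intro h
  apply hz
  have h1 : z = (z * d) * d⁻¹ := by
    rw [mul_assoc, mul_inv_cancel₀ hd0, mul_one]
  rw [h1]
  exact h.mul (alg_mem (Subfield.inv_mem _ hd))

/-- exchange -/
theorem exch {z w : S} (hz : Transcendental K z) (hw : Transcendental (ad K {z}) w) :
    Transcendental (ad K {w}) z := by
  have e : ∀ v : S, gn K (fun _ : Unit => v) = ad K {v} := by
    intro v
    unfold gn ad
    rw [Set.range_const]
  have h1 : AlgebraicIndependent K (fun _ : Unit => z) := by
    rw [algebraicIndependent_unique_type_iff]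
    exact hz
  have h2 : AlgebraicIndependent (gn K (fun _ : Unit => z)) (fun _ : Unit => w) := by
    rw [algebraicIndependent_unique_type_iff, e]
    exact hw
  have h3 := indep_sum_iff.2 ⟨h1, h2⟩
  have h4 : AlgebraicIndependent K (Sum.elim (fun _ : Unit => z) (fun _ : Unit => w)) := by
    have h5 := h3.comp Sum.swap Sum.swap_leftInverse.injective
    convert h5 using 1
    funext i
    rcases i with i | i <;> rfl
  have h6 := (indep_sum_iff.1 h4).2
  rw [algebraicIndependent_unique_type_iff, e] at h6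
  exact h6

theorem ad_ad : ad (ad K X) Y = ad K (X ∪ Y) := by
  apply le_antisymm
  · exact ad_le (ad_mono le_rfl Set.subset_union_left) fun z hz => mem_ad (Or.inr hz)
  · refine ad_le (le_ad.trans le_ad) ?_
    rintro z (hz | hz)
    · exact le_ad (mem_ad hz)
    · exact mem_ad hz

theorem ad_comm : ad (ad K X) Y = ad (ad K Y) X := by
  rw [ad_ad, ad_ad, Set.union_comm]

theorem mem_adE {z : S} : z ∈ ad K {z} := mem_ad rfl

theorem gauss_ad [CharZero S] (h : K ≤ M) (hrel : ∀ z ∈ M, IsAlgebraic K z → z ∈ K) {x : S}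
    (hx : Transcendental M x) :
    ∀ z ∈ ad M {x}, IsAlgebraic (ad K {x}) z → z ∈ ad K {x} := by
  intro z hz halg
  rw [← gen_one] at hz halg ⊢
  exact TH.gauss h hrel hx hz halg

theorem gn_one {z : S} : gn K (fun _ : Unit => z) = ad K {z} := by
  unfold gn ad
  rw [Set.range_const]

theorem sep1 [IsAlgClosed S] [CharZero S] (hK : ∀ z : S, IsAlgebraic K z → z ∈ K) {z1 z2 y : S}
    (hz : Transcendental (ad K {z2}) z1) (h1 : y ∈ ad (acl (ad K {z1})) {z2})
    (h2 : y ∈ ad (acl (ad K {z2})) {z1}) : y ∈ ad (ad K {z1}) {z2} := by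
  have e2 : ∀ (L : Subfield S) (v : S),
      gn L (Sum.elim (fun _ : Unit => v) (fun i : Empty => (i.elim : S))) = ad L {v} := by
    intro L v
    unfold gn ad
    rw [Set.Sum.elim_range, Set.range_const, Set.range_eq_empty, Set.union_empty]
  have h := sep (E := K) (t := fun _ : Unit => z1) (p := fun _ : Unit => z2)
    (w := fun i : Empty => (i.elim : S)) (y := y) hK ?_ ?_ ?_
  · refine (?_ : gn K _ ≤ _) h
    refine gn_le (le_ad.trans le_ad) ?_
    rintro (i | i | i)
    · exact le_ad mem_adE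
    · exact mem_adE
    · exact i.elim
  · rw [gn_one]
    have h3 : AlgebraicIndependent (ad K {z2}) (fun _ : Unit => z1) := by
      rw [algebraicIndependent_unique_type_iff]
      exact hz
    have h4 := h3.comp (fun i : Unit ⊕ Empty => ()) (by
      rintro (i | i) (j | j) _
      · rfl
      · exact j.elim
      · exact i.elim
      · exact i.elim)
    convert h4 using 1
    funext i
    rcases i with i | i
    · rfl
    · exact i.elim
  · rw [gn_one, e2]
    exact h1
  · rw [gn_one, e2]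
    exact h2

end ad

section emb

variable {S : Type u} [Field S]

/-- **Homogeneity.** -/
theorem exists_emb [IsAlgClosed S] {R : Subfield S} {a b : S} (ha : Transcendental R a)
    (hb : Transcendental R b) : ∃ (D : Subfield S) (φ : D →+* S),
      (∀ z, IsAlgebraic (ad R {a}) z → z ∈ D) ∧ (∀ z : D, (z : S) ∈ R → φ z = z) ∧
      ∀ z : D, (z : S) = a → φ z = b := by
  have ha' : AlgebraicIndependent R (fun _ : Unit => a) := by
    rw [algebraicIndependent_unique_type_iff]
    exact ha
  have hb' : AlgebraicIndependent R (fun _ : Unit => b) := by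
    rw [algebraicIndependent_unique_type_iff]
    exact hb
  let K1 := IntermediateField.adjoin R (Set.range fun _ : Unit => a)
  let ψ : K1 →ₐ[R] S := (IntermediateField.val _).comp
    (hb'.aevalEquivField.toAlgHom.comp ha'.aevalEquivField.symm.toAlgHom)
  have hψa : ∀ z : K1, (z : S) = a → ψ z = b := by
    intro z hz
    have h1 : z = ha'.aevalEquivField (algebraMap (MvPolynomial Unit R)
        (FractionRing (MvPolynomial Unit R)) (MvPolynomial.X ())) := by
      apply Subtype.ext
      rw [hz, ha'.aevalEquivField_algebraMap_apply_coe, MvPolynomial.aeval_X]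
    have h2 : ψ z = ((hb'.aevalEquivField (ha'.aevalEquivField.symm z) :
        IntermediateField.adjoin R (Set.range fun _ : Unit => b)) : S) := rfl
    rw [h2, h1, AlgEquiv.symm_apply_apply, hb'.aevalEquivField_algebraMap_apply_coe,
      MvPolynomial.aeval_X]
  obtain ⟨φ, hφ⟩ := IntermediateField.exists_algHom_adjoin_of_splits' (F := R) (E := S) (K := S)
    (S := {z : S | IsAlgebraic K1 z}) (L := K1) ψ (fun z hz => ⟨hz.isIntegral, IsAlgClosed.splits _⟩)
  have hK1 : ad R {a} = K1.toSubfield := by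
    rw [IntermediateField.adjoin_toSubfield]
    unfold ad
    rw [Set.range_const]
    congr 1
    ext z
    constructor
    · rintro (hz | hz)
      · exact Or.inl ⟨⟨z, hz⟩, rfl⟩
      · exact Or.inr hz
    · rintro (⟨c, rfl⟩ | hz)
      · exact Or.inl c.2
      · exact Or.inr hz
  have hφ' : ∀ z : K1, φ (algebraMap K1 _ z) = ψ z := fun z => congrArg (fun f => f z) hφ
  refine ⟨(IntermediateField.adjoin K1 {z : S | IsAlgebraic K1 z}).toSubfield, φ.toRingHom, ?_, ?_, ?_⟩
  · intro z hz
    have h1 : IsAlgebraic K1 z := by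
      rw [hK1] at hz
      exact hz
    exact IntermediateField.subset_adjoin K1 _ h1
  · intro z hz
    exact φ.commutes ⟨z, hz⟩
  · intro z hz
    have h2 : a ∈ K1 := IntermediateField.subset_adjoin R _ ⟨(), rfl⟩
    have h4 := hφ' ⟨a, h2⟩
    rw [hψa ⟨a, h2⟩ rfl] at h4
    rw [← h4]
    change φ z = _
    congr 1
    exact Subtype.ext hz

/-- the image of the field generated by a set -/
theorem emb_ad {D : Subfield S} (φ : D →+* S) {E L : Subfield S} {X : Set S} (hED : E ≤ D)
    (hXD : ∀ x ∈ X, x ∈ D) (h1 : ∀ z : D, (z : S) ∈ E → φ z ∈ L)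
    (h2 : ∀ z : D, (z : S) ∈ X → φ z ∈ L) : ∀ z : D, (z : S) ∈ ad E X → φ z ∈ L := by
  intro z hz
  have h3 : ad E X ≤ (L.comap φ).map D.subtype := by
    refine ad_le (fun x hx => ?_) fun x hx => ?_
    · exact ⟨⟨x, hED hx⟩, h1 ⟨x, hED hx⟩ hx, rfl⟩
    · exact ⟨⟨x, hXD x hx⟩, h2 ⟨x, hXD x hx⟩ hx, rfl⟩
  obtain ⟨z', hz', hzz⟩ := h3 hz
  have h4 : z' = z := Subtype.ext hzz
  rw [← h4]
  exact hz'

theorem emb_alg {D : Subfield S} (φ : D →+* S) {K L : Subfield S} (hKD : K ≤ D)
    (h : ∀ z : D, (z : S) ∈ K → φ z ∈ L) {z : D} (hz : IsAlgebraic K (z : S)) :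
    IsAlgebraic L (φ z) := by
  obtain ⟨q, hq0, hq⟩ := hz
  let ψ : K →+* L := (φ.comp (Subfield.inclusion hKD)).codRestrict L fun x => h _ x.2
  refine ⟨q.map ψ, (Polynomial.map_ne_zero_iff ψ.injective).2 hq0, ?_⟩
  have h1 : eval₂ (Subfield.inclusion hKD) z q = 0 := by
    apply D.subtype.injective
    rw [map_zero, hom_eval₂]
    exact hq
  have h2 := congrArg φ h1
  rw [map_zero, hom_eval₂] at h2
  rw [aeval_def, eval₂_map]
  exact h2

end emb

section plane

variable {S : Type u} [Field S] [IsAlgClosed S] [CharZero S]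

/-- **The generic line in the plane.** -/
theorem plane {E : Subfield S} (hE : ∀ z : S, IsAlgebraic E z → z ∈ E)
    {a0 a1 u y : S} (ha1 : Transcendental E a1) (ha0 : Transcendental (ad E {a1}) a0)
    (hu : Transcendental (ad (ad E {a1}) {a0}) u)
    (h1 : y ∈ ad (acl (ad (ad E {a1}) {a0})) {u})
    (h2 : IsAlgebraic (ad (ad E {u}) {a0 + u * a1}) y) :
    y ∈ ad (ad E {u}) {a0 + u * a1} := by
  set c := a0 + u * a1 with hc
  -- transcendence
  have hu1 : Transcendental (ad E {a1}) u := tr_mono le_ad hu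
  have ha0u : Transcendental (ad (ad E {a1}) {u}) a0 := exch ha0 hu
  have hcu : Transcendental (ad (ad E {a1}) {u}) c :=
    tr_add ha0u (Subfield.mul_mem _ mem_adE (le_ad mem_adE))
  have ha1u : Transcendental (ad E {u}) a1 := exch ha1 hu1
  have ha1R : Transcendental (ad (ad E {u}) {c}) a1 := exch ha1u (by rw [ad_comm]; exact hcu)
  -- the automorphism
  set R := acl (ad (ad E {u}) {c}) with hR
  have ha1R' : Transcendental R a1 := tr_acl ha1R
  have hER : E ≤ R := le_ad.trans (le_ad.trans le_acl)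
  have huR : u ∈ R := le_acl (le_ad mem_adE)
  have hcR : c ∈ R := le_acl mem_adE
  obtain ⟨D, φ, hD, hφR, hφa⟩ := exists_emb ha1R' (tr_add ha1R' (Subfield.one_mem R))
  have hRD : ad R {a1} ≤ D := fun z hz => hD z (alg_mem hz)
  have ha1D : a1 ∈ D := hRD mem_adE
  have ha0' : a0 = c - u * a1 := by rw [hc]; ring
  have ha0D' : a0 ∈ ad R {a1} := by
    rw [ha0']
    exact Subfield.sub_mem _ (le_ad hcR) (Subfield.mul_mem _ (le_ad huR) mem_adE)
  have ha0D : a0 ∈ D := hRD ha0D'
  have huD : u ∈ D := hRD (le_ad huR)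
  have hφu : φ ⟨u, huD⟩ = u := hφR _ huR
  have hφa1 : φ ⟨a1, ha1D⟩ = a1 + 1 := hφa _ rfl
  have hφa0 : φ ⟨a0, ha0D⟩ = a0 - u := by
    have e1 : (⟨a0, ha0D⟩ : D) = ⟨c, hRD (le_ad hcR)⟩ - ⟨u, huD⟩ * ⟨a1, ha1D⟩ := Subtype.ext ha0'
    rw [e1, map_sub, map_mul, hφa1, hφu, hφR _ hcR]
    change c - u * (a1 + 1) = a0 - u
    rw [hc]
    ring
  -- the image of `E(a0, a1)`
  set κ := acl (ad E {a1}) with hκ
  have hEa : ad (ad E {a1}) {a0} ≤ ad R {a1} :=
    ad_le (ad_mono hER le_rfl) (by rintro _ rfl; exact ha0D')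
  have hmap : ∀ z : D, (z : S) ∈ ad (ad E {a1}) {a0} → φ z ∈ ad κ {a0 - u} := by
    refine emb_ad φ ((ad_mono hER le_rfl).trans hRD) (by rintro _ rfl; exact ha0D) ?_ ?_
    · refine emb_ad φ (hER.trans (le_ad.trans hRD)) (by rintro _ rfl; exact ha1D) ?_ ?_
      · intro z hz
        rw [hφR z (hER hz)]
        exact le_ad (le_acl (le_ad hz))
      · intro z hz
        have e1 : z = ⟨a1, ha1D⟩ := Subtype.ext hz
        rw [e1, hφa1]
        exact le_ad (le_acl (Subfield.add_mem _ mem_adE (Subfield.one_mem _)))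
    · intro z hz
      have e1 : z = ⟨a0, ha0D⟩ := Subtype.ext hz
      rw [e1, hφa0]
      exact mem_adE
  have haclD : acl (ad (ad E {a1}) {a0}) ≤ D := fun z hz =>
    hD z (isAlgebraic_mono hEa (mem_acl.1 hz))
  have hyR : y ∈ R := mem_acl.2 h2
  have hyD : y ∈ D := hRD (le_ad hyR)
  have h3 : y ∈ ad (acl (ad κ {a0 - u})) {u} := by
    have e1 : φ ⟨y, hyD⟩ = y := hφR _ hyR
    rw [← e1]
    refine emb_ad φ (E := acl (ad (ad E {a1}) {a0})) (X := {u}) haclD
      (by rintro _ rfl; exact huD) ?_ ?_ _ h1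
    · intro z hz
      refine le_ad (mem_acl.2 ?_)
      exact emb_alg φ (hEa.trans hRD) hmap (mem_acl.1 hz)
    · intro z hz
      have e2 : z = ⟨u, huD⟩ := Subtype.ext hz
      rw [e2, hφu]
      exact mem_adE
  -- separation of variables
  have h4 : y ∈ ad (acl (ad κ {a0})) {u} := by
    refine (?_ : ad _ _ ≤ ad _ _) h1
    exact ad_mono (acl_mono (ad_mono le_acl le_rfl)) le_rfl
  have hκcl : ∀ z : S, IsAlgebraic κ z → z ∈ κ := fun z hz => acl_closed hz
  have hκ0 : Transcendental κ a0 := tr_acl ha0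
  have hκu : Transcendental (ad κ {a0}) u := by
    have e1 := tr_acl hu
    refine tr_mono ?_ e1
    exact ad_le (acl_mono le_ad) (by rintro _ rfl; exact le_acl mem_adE)
  have h5 : y ∈ ad (ad κ {a0 - u}) {a0} := by
    refine sep1 hκcl ?_ ?_ ?_
    · have e1 : Transcendental (ad κ {a0}) (u * (-1) + a0) := by
        refine tr_add (tr_mul hκu ?_ ?_) mem_adE
        · exact Subfield.neg_mem _ (Subfield.one_mem _)
        · norm_num
      have e2 : a0 - u = u * (-1) + a0 := by ring
      rw [e2]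
      exact e1
    · refine (?_ : ad _ _ ≤ ad _ _) h3
      refine ad_le le_ad fun z hz => ?_
      have e1 : z = a0 - (a0 - u) := by rw [Set.mem_singleton_iff.1 hz]; ring
      rw [e1]
      exact Subfield.sub_mem _ mem_adE (le_ad (le_acl mem_adE))
    · refine (?_ : ad _ _ ≤ ad _ _) h4
      refine ad_le le_ad fun z hz => ?_
      have e1 : z = a0 - (a0 - u) := by rw [Set.mem_singleton_iff.1 hz]; ring
      rw [e1]
      exact Subfield.sub_mem _ (le_ad (le_acl mem_adE)) mem_adE
  -- Gauss
  have ha1κ : a1 ∈ κ := le_acl mem_adE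
  have hEκ : E ≤ κ := le_ad.trans le_acl
  have h6 : y ∈ ad (ad κ {u}) {c} := by
    refine (?_ : ad _ _ ≤ ad _ _) h5
    have e2 : a0 ∈ ad (ad κ {u}) {c} := by
      rw [ha0']
      exact Subfield.sub_mem _ mem_adE (Subfield.mul_mem _ (le_ad mem_adE) (le_ad (le_ad ha1κ)))
    refine ad_le (ad_le (le_ad.trans le_ad) ?_) ?_
    · rintro _ rfl
      exact Subfield.sub_mem _ e2 (le_ad mem_adE)
    · rintro _ rfl
      exact e2
  have hκu' : Transcendental κ u := tr_mono le_ad hκu
  have hκc : Transcendental (ad κ {u}) c :=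
    tr_add (exch hκ0 hκu) (Subfield.mul_mem _ mem_adE (le_ad ha1κ))
  exact gauss_ad (ad_mono hEκ le_rfl) (gauss_ad hEκ (fun z _ hz => hE z hz) hκu') hκc y h6 h2

end plane

end Pool.Agent.OPN
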