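import Pool.Agent.Helper13.OPN.E

/-!
# Project OPN: no roots at the generic point of the linear system
-/

universe u v w

namespace Pool.Agent.OPN

open Polynomial Pool.Agent.Helper37.UL

/-- The generic vector with coordinates in the linear system spanned by the `v e` is generic over `F₁`. -/
theorem gen_sum {F F₁ : Type u} [Field F] [Field F₁] [Algebra F F₁]
    {I : Type} {l : ℕ} {v : Fin (l + 1) → F₁} {j₀ : Fin (l + 1)} (hv : v j₀ ≠ 0)
    {J : Type v} {U : Ultrafilter J} {vv : J → I × Fin (l + 1) → F}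
    (hU : ∀ Ψ : MvPolynomial (I × Fin (l + 1)) F, Ψ ≠ 0 →
      ∀ᶠ j in (U : Filter J), MvPolynomial.eval (vv j) Ψ ≠ 0)
    (Ψ : MvPolynomial I F₁) (hΨ : Ψ ≠ 0) :
    ∀ᶠ j in (U : Filter J),
      MvPolynomial.eval (fun i => ∑ e, algebraMap F F₁ (vv j (i, e)) * v e) Ψ ≠ 0 := by
  classical
  let τ : MvPolynomial I F₁ →ₐ[F₁] MvPolynomial (I × Fin (l + 1)) F₁ :=
    MvPolynomial.bind₁ fun i => ∑ e, MvPolynomial.X (i, e) * MvPolynomial.C (v e)
  let τ' : MvPolynomial (I × Fin (l + 1)) F₁ →ₐ[F₁] MvPolynomial I F₁ :=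
    MvPolynomial.bind₁ fun p => if p.2 = j₀ then MvPolynomial.X p.1 * MvPolynomial.C (v j₀)⁻¹ else 0
  have h1 : τ'.comp τ = AlgHom.id F₁ _ := by
    apply MvPolynomial.algHom_ext
    intro i
    simp only [τ, τ', AlgHom.comp_apply, MvPolynomial.bind₁_X_right, map_sum, map_mul,
      MvPolynomial.bind₁_C_right, AlgHom.id_apply]
    rw [Finset.sum_eq_single j₀]
    · rw [if_pos rfl, mul_assoc, ← MvPolynomial.C_mul, inv_mul_cancel₀ hv, MvPolynomial.C_1, mul_one]
    · intro e _ he
      rw [if_neg he, zero_mul]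
    · intro h
      exact absurd (Finset.mem_univ _) h
  have h2 : τ Ψ ≠ 0 := by
    intro h0
    apply hΨ
    have h3 : τ' (τ Ψ) = Ψ := congrArg (fun f => f Ψ) h1
    rw [← h3, h0, map_zero]
  filter_upwards [UL.gen_extend hU (τ Ψ) h2] with j hj
  intro h0
  apply hj
  rw [← h0]
  have h3 : MvPolynomial.eval (fun p => algebraMap F F₁ (vv j p)) (τ Ψ) =
      MvPolynomial.eval (fun i => MvPolynomial.eval (fun p => algebraMap F F₁ (vv j p))
        (∑ e, MvPolynomial.X (i, e) * MvPolynomial.C (v e))) Ψ :=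
    MvPolynomial.eval₂Hom_bind₁ (RingHom.id F₁) (fun p => algebraMap F F₁ (vv j p)) _ Ψ
  rw [h3]
  congr 1
  congr 1
  funext i
  rw [map_sum]
  refine Finset.sum_congr rfl fun e _ => ?_
  rw [map_mul, MvPolynomial.eval_X, MvPolynomial.eval_C]

/-- The generic vector with coordinates in the linear system spanned by the `v e` is not in a thin set. -/
theorem no_root {F F₁ C : Type u} [Field F] [Field F₁] [Field C] [CharZero C] [IsAlgClosed C]
    [Algebra F F₁] [Algebra F₁ C]
    (hF₁ : ∃ S : Finset F₁, Subfield.closure (S : Set F₁) = ⊤)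
    {I : Type} [Finite I] {l : ℕ} {v : Fin (l + 1) → F₁} {i₀ j₀ : Fin (l + 1)}
    (hv : Transcendental F (v i₀ / v j₀))
    {J : Type v} {U : Ultrafilter J} {S : Type w} [Field S] {π : (J → C) →+* S} (h : UP U π)
    {vv : J → I × Fin (l + 1) → F}
    (hU : ∀ Ψ : MvPolynomial (I × Fin (l + 1)) F, Ψ ≠ 0 →
      ∀ᶠ j in (U : Filter J), MvPolynomial.eval (vv j) Ψ ≠ 0)
    {Q : (MvPolynomial I F₁)[X]} (hQ2 : 2 ≤ Q.natDegree)
    (hQ : Irreducible (Q.map (algebraMap (MvPolynomial I F₁) (FractionRing (MvPolynomial I F₁)))))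
    {x : J → F₁} : ¬ ∀ᶠ j in (U : Filter J),
      eval₂ (MvPolynomial.eval fun i => ∑ e, algebraMap F F₁ (vv j (i, e)) * v e) (x j) Q = 0 := by
  classical
  intro hroot
  have hSc : IsAlgClosed S := h.isAlgClosed
  have hS0 : CharZero S := h.charZero
  -- the denominators
  have hvj : v j₀ ≠ 0 := by
    intro h0
    apply hv
    rw [h0, div_zero]
    exact isAlgebraic_zero
  have hij : i₀ ≠ j₀ := by
    intro h0
    apply hv
    rw [h0, div_self hvj]
    exact isAlgebraic_one
  set T := v i₀ / v j₀ with hT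
  -- the structure of `F₁`
  obtain ⟨Fh, q, hFh, hTh, hq, hF1⟩ := exists_struct (C := C) hF₁ hv
  set φ := algebraMap F₁ C with hφ
  set ψ : C →+* S := UP.cst π with hψ
  set FS : Subfield S := Fh.map ψ with hFS
  set Φ : Subfield S := h.gsub Fh with hΦ
  set M : Subfield S := h.gsub φ.fieldRange with hM
  set F1S : Subfield S := ad (ad FS {ψ (φ T)}) {ψ q} with hF1S
  have hF1S' : φ.fieldRange.map ψ = F1S := by
    rw [hF1, map_ad1, map_ad1]
  -- the generic vectors
  let cc : J → I → F₁ := fun j i => ∑ e, algebraMap F F₁ (vv j (i, e)) * v e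
  let a : I × Fin (l + 1) → S := fun p => π fun j => φ (algebraMap F F₁ (vv j p))
  let c' : I → S := fun i => ∑ e, a (i, e) * ψ (φ (v e / v j₀))
  have hcc : ∀ i, (π fun j => φ (cc j i)) = ψ (φ (v j₀)) * c' i := by
    intro i
    have h1 : (fun j => φ (cc j i)) = ∑ e, (fun j => φ (algebraMap F F₁ (vv j (i, e)))) *
        fun _ : J => φ (v e) := by
      funext j
      simp only [cc, map_sum, map_mul, Finset.sum_apply, Pi.mul_apply]
    rw [h1, map_sum]
    simp only [c', Finset.mul_sum]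
    refine Finset.sum_congr rfl fun e _ => ?_
    rw [map_mul]
    have h2 : (π fun _ : J => φ (v e)) = ψ (φ (v e)) := rfl
    have h3 : v e = v j₀ * (v e / v j₀) := by field_simp
    rw [h2]
    conv_lhs => rw [h3, map_mul, map_mul]
    simp only [a]
    ring
  have hψj : ψ (φ (v j₀)) ≠ 0 := by
    rw [_root_.map_ne_zero, _root_.map_ne_zero]
    exact hvj
  -- core
  have hF1M : F1S ≤ M := by
    rw [← hF1S']
    rintro _ ⟨z, hz, rfl⟩
    exact h.const_mem_gsub.2 hz
  have hFhle : Fh ≤ φ.fieldRange := by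
    rw [hF1]
    exact le_ad.trans le_ad
  have haΦ : ∀ p, a p ∈ Φ := fun p => ⟨_, fun j => hFh _, rfl⟩
  have ha : AlgebraicIndependent FS a := by
    let _ : Algebra F C := (φ.comp (algebraMap F F₁)).toAlgebra
    have h1 := UL.algInd_xgC h (vv := fun j p => algebraMap F C (vv j p))
      (fun Ψ hΨ => UL.gen_extend hU Ψ hΨ)
    refine indep_mono ?_ h1
    rintro _ ⟨z, -, rfl⟩
    exact ⟨z, rfl⟩
  have hu : Transcendental Φ (ψ (φ T)) := by
    have h1 : AlgebraicIndependent Fh (fun _ : Fin 1 => φ T) := by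
      rw [algebraicIndependent_unique_type_iff]
      exact hTh
    have h2 := h.algInd h1
    exact h2.transcendental 0
  have hq' : IsAlgebraic (ad FS {ψ (φ T)}) (ψ q) := by
    refine HZ.alg_map ψ ?_ hq
    intro z hz
    rw [← map_ad1]
    exact ⟨z, hz, rfl⟩
  have hMrel : ∀ z ∈ M, IsAlgebraic F1S z → z ∈ F1S := by
    intro z hz halg
    rw [← hF1S'] at halg ⊢
    exact cst_rac h hz halg
  have hMΦ : ∀ z ∈ M, IsAlgebraic (ad (ad Φ {ψ (φ T)}) {ψ q}) z →
      z ∈ ad (ad Φ {ψ (φ T)}) {ψ q} := by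
    have h1 : M = ad (h.gsub (ad Fh {φ T})) {ψ q} := by
      rw [hM, hF1]
      exact TD.gsub_adjoin h hq
    have h2 : ad Φ {ψ (φ T)} ≤ h.gsub (ad Fh {φ T}) := by
      refine ad_le (h.gsub_mono le_ad) ?_
      rintro _ rfl
      exact h.const_mem_gsub.2 mem_adE
    have h3 : ∀ z ∈ h.gsub (ad Fh {φ T}), IsAlgebraic (ad Φ {ψ (φ T)}) z → z ∈ ad Φ {ψ (φ T)} := by
      intro z hz halg
      have e1 : (fun i : Fin 1 => UP.cst π ((![φ T] : Fin 1 → C) i)) = ![ψ (φ T)] := by
        funext i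
        fin_cases i
        rfl
      have e2 : gen Fh ![φ T] = ad Fh {φ T} := gen_one
      have e3 : gen Φ ![ψ (φ T)] = ad Φ {ψ (φ T)} := gen_one
      have hind : AlgebraicIndependent Fh (![φ T] : Fin 1 → C) := by
        rw [algebraicIndependent_unique_type_iff]
        exact hTh
      have h4 := h.gen_relAlgClosed hind (x := z)
      rw [e1, e2, e3] at h4
      exact h4 hz halg
    intro z hz halg
    rw [h1] at hz
    exact TD.relClosed_adjoin h2 h3 (isAlgebraic_mono (ad_mono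
      (by rintro _ ⟨w, hw, rfl⟩; exact h.const_mem_gsub.2 hw) le_rfl) hq') z hz halg
  have hcore := fun (y : S) (hy : y ∈ M) (halg : IsAlgebraic (gn F1S c') y) =>
    core (FS := FS) (Φ := Φ) (M := M) (u := ψ (φ T)) (q := ψ q) (a := a)
      (v := fun e => ψ (φ (v e / v j₀))) (i₀ := i₀) (j₀ := j₀)
      (by rintro _ ⟨w, hw, rfl⟩; exact h.const_mem_gsub.2 hw) hu hq' haΦ ha
      (fun e => by
        change ψ (φ (v e / v j₀)) ∈ F1S
        rw [← hF1S']
        exact ⟨_, ⟨_, rfl⟩, rfl⟩)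
      hij rfl (by rw [div_self hvj, map_one, map_one]) hF1M (h.gsub_mono hFhle) hMrel hMΦ hy halg
  -- the field of rational functions
  have hgen : ∀ Ψ : MvPolynomial I F₁, Ψ ≠ 0 →
      ∀ᶠ j in (U : Filter J), MvPolynomial.eval (cc j) Ψ ≠ 0 := gen_sum hvj hU
  have hinj : Function.Injective (UL.evg π cc) := UL.evg_injective h hgen
  let K := FractionRing (MvPolynomial I F₁)
  let e : K →+* S := IsFractionRing.lift hinj
  have he : ∀ Ψ : MvPolynomial I F₁, e (algebraMap _ K Ψ) = UL.evg π cc Ψ := fun Ψ =>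
    IsFractionRing.lift_algebraMap hinj Ψ
  have hge : gn F1S c' ≤ e.fieldRange := by
    refine gn_le ?_ fun i => ?_
    · rw [← hF1S']
      rintro _ ⟨_, ⟨z, rfl⟩, rfl⟩
      exact ⟨algebraMap _ K (MvPolynomial.C z), by rw [he, UL.evg_C]⟩
    · refine ⟨algebraMap _ K (MvPolynomial.C (v j₀)⁻¹ * MvPolynomial.X i), ?_⟩
      rw [he, map_mul, UL.evg_C, UL.evg_X]
      have h1 : UL.xg π (fun j i => φ (cc j i)) i = ψ (φ (v j₀)) * c' i := hcc i
      rw [← hφ, h1, ← mul_assoc, ← map_mul, ← map_mul, inv_mul_cancel₀ hvj, map_one, map_one,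
        one_mul]
  have hcoef : ∀ Ψ : MvPolynomial I F₁, UL.evg π cc Ψ ∈ gn F1S c' := by
    intro Ψ
    induction Ψ using MvPolynomial.induction_on with
    | C c =>
      rw [UL.evg_C]
      refine le_gn ?_
      rw [← hF1S']
      exact ⟨_, ⟨c, rfl⟩, rfl⟩
    | add p q hp hq => rw [map_add]; exact add_mem hp hq
    | mul_X p i hp =>
      rw [map_mul, UL.evg_X]
      refine mul_mem hp ?_
      have h1 : UL.xg π (fun j i => φ (cc j i)) i = ψ (φ (v j₀)) * c' i := hcc i
      rw [← hφ, h1]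
      refine mul_mem (le_gn ?_) (mem_gn i)
      rw [← hF1S']
      exact ⟨_, ⟨_, rfl⟩, rfl⟩
  -- the root
  set y : S := π fun j => φ (x j) with hy
  have hyM : y ∈ M := ⟨_, fun j => ⟨x j, rfl⟩, rfl⟩
  have hy0 : eval₂ (UL.evg π cc) y Q = 0 := by
    rw [hy, UL.eval₂_evg, h.eq0]
    filter_upwards [hroot] with j hj
    rw [← hom_eval₂]
    change φ _ = 0
    rw [show eval₂ (MvPolynomial.eval (cc j)) (x j) Q = 0 from hj, map_zero]
  have hyalg : IsAlgebraic (gn F1S c') y := by
    let θ : MvPolynomial I F₁ →+* gn F1S c' := (UL.evg π cc).codRestrict (gn F1S c') hcoef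
    refine ⟨Q.map θ, ?_, ?_⟩
    · rw [Ne, Polynomial.map_eq_zero_iff]
      · intro h0
        rw [h0, natDegree_zero] at hQ2
        omega
      · intro p q hpq
        exact hinj (congrArg Subtype.val hpq)
    · rw [aeval_def, eval₂_map]
      exact hy0
  obtain ⟨z, hz⟩ := hge (hcore y hyM hyalg)
  have hz0 : (Q.map (algebraMap (MvPolynomial I F₁) K)).IsRoot z := by
    rw [IsRoot.def, eval_map]
    apply e.injective
    rw [map_zero, hom_eval₂]
    have h1 : e.comp (algebraMap (MvPolynomial I F₁) K) = UL.evg π cc := RingHom.ext he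
    rw [h1, hz]
    exact hy0
  have hdeg := Polynomial.degree_eq_one_of_irreducible_of_root hQ hz0
  have hnat : (Q.map (algebraMap (MvPolynomial I F₁) K)).natDegree = 1 :=
    Polynomial.natDegree_eq_of_degree_eq_some hdeg
  rw [natDegree_map_eq_of_injective (IsFractionRing.injective (MvPolynomial I F₁) K)] at hnat
  omega

end Pool.Agent.OPN
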