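import Pool.Agent.Helper13.OPN.G

/-!
# Project OPN: interface: `Pool.Agent.OPN.no_root` is proved in `OPN/G.lean`
-/
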